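import Pool.Agent.H24.KTH.Geo

/-!
# KTH, row PT7: the direction from one point and the base line
-/

set_option autoImplicit false

namespace Pool.Agent.H24.KTH

open Finset Real
open Pool.Agent.H49.Ent Pool.Agent.H32.Dense

/-- the elementary estimate -/
theorem pt7_real {M : ℝ} (hM : 0 < M) (c : ℤ) {gi gk Wi Wk : ℝ} (hg : |gk| ≤ |gi|)
    (hgi : |gi| ≤ 2 * M) (hWi : |Wi - (c : ℝ) / M * gi| ≤ 2) (hWk : |Wk - (c : ℝ) / M * gk| ≤ 2) :
    |gk - (if 8 ≤ |Wi| then gi * Wk / Wi else 0)| ≤ 10 * M / max |(c : ℝ)| 1 := by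
  have hxi : |(c : ℝ) / M * gi| = |(c : ℝ)| / M * |gi| := by
    rw [abs_mul, abs_div, abs_of_pos hM]
  split_ifs with h8
  · have h6 : 6 ≤ |(c : ℝ) / M * gi| := by
      have h1 := abs_sub_abs_le_abs_sub Wi ((c : ℝ) / M * gi)
      linarith
    have hc0 : c ≠ 0 := by
      rintro rfl
      simp at h6
      norm_num at h6
    have hc1 : (1 : ℝ) ≤ |(c : ℝ)| := by
      have := Int.one_le_abs hc0
      have h2 : ((1 : ℤ) : ℝ) ≤ ((|c| : ℤ) : ℝ) := by exact_mod_cast this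
      rwa [Int.cast_abs, Int.cast_one] at h2
    have hcp : (0 : ℝ) < |(c : ℝ)| := by linarith
    rw [max_eq_left hc1]
    have hWp : (0 : ℝ) < |Wi| := by linarith
    have hWi0 : Wi ≠ 0 := abs_pos.mp hWp
    have e1 : gk - gi * Wk / Wi = (gk * (Wi - (c : ℝ) / M * gi) - gi * (Wk - (c : ℝ) / M * gk)) /
        Wi := by
      field_simp
      ring
    rw [e1, abs_div, div_le_div_iff₀ hWp hcp]
    have h1 : |gk * (Wi - (c : ℝ) / M * gi) - gi * (Wk - (c : ℝ) / M * gk)| ≤ 4 * |gi| := by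
      have h2 := abs_sub (gk * (Wi - (c : ℝ) / M * gi)) (gi * (Wk - (c : ℝ) / M * gk))
      rw [abs_mul, abs_mul] at h2
      have h3 : |gk| * |Wi - (c : ℝ) / M * gi| ≤ |gi| * 2 :=
        mul_le_mul hg hWi (abs_nonneg _) (abs_nonneg _)
      have h4 : |gi| * |Wk - (c : ℝ) / M * gk| ≤ |gi| * 2 :=
        mul_le_mul_of_nonneg_left hWk (abs_nonneg _)
      linarith
    have h5 : |(c : ℝ)| * |gi| ≤ M * (|Wi| + 2) := by
      have h2 := abs_sub_abs_le_abs_sub ((c : ℝ) / M * gi) Wi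
      rw [abs_sub_comm] at hWi
      rw [hxi] at h2
      have h3 : |(c : ℝ)| / M * |gi| ≤ |Wi| + 2 := by linarith
      have h4 : |(c : ℝ)| / M * |gi| = |(c : ℝ)| * |gi| / M := by ring
      rw [h4, div_le_iff₀ hM] at h3
      linarith
    calc |gk * (Wi - (c : ℝ) / M * gi) - gi * (Wk - (c : ℝ) / M * gk)| * |(c : ℝ)|
        ≤ 4 * |gi| * |(c : ℝ)| := mul_le_mul_of_nonneg_right h1 hcp.le
      _ = 4 * (|(c : ℝ)| * |gi|) := by ring
      _ ≤ 4 * (M * (|Wi| + 2)) := by linarith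
      _ ≤ 10 * M * |Wi| := by nlinarith
  · rw [sub_zero]
    refine hg.trans ?_
    by_cases hc0 : c = 0
    · subst hc0
      simp only [Int.cast_zero, abs_zero]
      rw [max_eq_right (by norm_num), div_one]
      linarith
    · have hc1 : (1 : ℝ) ≤ |(c : ℝ)| := by
        have := Int.one_le_abs hc0
        have h2 : ((1 : ℤ) : ℝ) ≤ ((|c| : ℤ) : ℝ) := by exact_mod_cast this
        rwa [Int.cast_abs, Int.cast_one] at h2
      have hcp : (0 : ℝ) < |(c : ℝ)| := by linarith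
      rw [max_eq_left hc1, le_div_iff₀ hcp]
      have h2 := abs_sub_abs_le_abs_sub ((c : ℝ) / M * gi) Wi
      rw [abs_sub_comm] at hWi
      rw [hxi] at h2
      have h3 : |(c : ℝ)| / M * |gi| ≤ 10 := by
        have := not_le.1 h8
        linarith
      have h4 : |(c : ℝ)| / M * |gi| = |(c : ℝ)| * |gi| / M := by ring
      rw [h4, div_le_iff₀ hM] at h3
      linarith

/-- the centre -/
noncomputable def pt7F {d : ℕ} (M : ℕ) (w : Fin d → ℤ) (uw : Fin d → ℝ) (T : ℤ) (X : Fin d → ℤ)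
    (i : Fin d) (g : ℤ) : Fin d → ℝ := fun k =>
  (w k : ℝ) + if 8 ≤ |(X i : ℝ) - pos M uw w T i| then
    (g : ℝ) * ((X k : ℝ) - pos M uw w T k) / ((X i : ℝ) - pos M uw w T i) else 0

theorem sz_nonneg {M : ℕ} (x : ℝ) : 0 ≤ sz M x := by
  unfold sz
  have h1 : 0 ≤ |x| / (M : ℝ) := by positivity
  have h2 : 0 ≤ (M : ℝ) / max |x| 1 := by
    have : (0 : ℝ) < max |x| 1 := lt_of_lt_of_le one_pos (le_max_right _ _)
    positivity
  exact add_nonneg (Real.log_nonneg (by linarith)) (Real.log_nonneg (by linarith))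

theorem dsv_nonneg {d : ℕ} (x y : Fin d → ℤ) : 0 ≤ dsv x y := norm_nonneg _

theorem abs_le_dsv {d : ℕ} (x y : Fin d → ℤ) (k : Fin d) :
    |((x k - y k : ℤ) : ℝ)| ≤ dsv x y := by
  have := norm_le_pi_norm (fun k => ((x k - y k : ℤ) : ℝ)) k
  rwa [Real.norm_eq_abs] at this

theorem dsv_exists {d : ℕ} (hd : 0 < d) (x y : Fin d → ℤ) :
    ∃ i : Fin d, (|x i - y i| : ℝ) = dsv x y := by
  haveI : Nonempty (Fin d) := ⟨⟨0, hd⟩⟩
  obtain ⟨i, hi⟩ := Finite.exists_max fun k : Fin d => |((x k - y k : ℤ) : ℝ)|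
  refine ⟨i, le_antisymm ?_ ?_⟩
  · have := abs_le_dsv x y i
    push_cast at this
    exact this
  · refine (pi_norm_le_iff_of_nonneg (abs_nonneg _)).2 fun k => ?_
    have := hi k
    rw [Real.norm_eq_abs]
    push_cast at this ⊢
    exact this

/-- **PT7**. -/
theorem pt7 : PT7Stmt := by
  intro hVEC d
  refine ⟨20 * d + 3, ?_⟩
  intro Ω _ ζ J q Z w uw v s c X hPt
  have hp := hPt.fam.hp
  have h1 := hPt.fam.h1
  have hM0 : (0 : ℝ) < ((2 ^ J : ℕ) : ℝ) := by positivity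
  have hlogM : Real.log ((2 ^ J : ℕ) : ℝ) = J * Real.log 2 := by
    push_cast
    rw [Real.log_pow]
  have hlvv : J * Real.log 2 - Ex q (fun ω => lvv (2 ^ J) (v ω) (w ω)) =
      Ex q (fun ω => Real.log (max (dsv (v ω) (w ω)) 1)) := by
    rw [← Ex_const h1 (J * Real.log 2), ← Ex_sub]
    refine congrArg (Ex q) (funext fun ω => ?_)
    have hpos : (0 : ℝ) < max (dsv (v ω) (w ω)) 1 := lt_of_lt_of_le one_pos (le_max_right _ _)
    unfold lvv
    rw [Real.log_div hM0.ne' hpos.ne', hlogM]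
    ring
  rw [hlvv]
  have hsz : 0 ≤ Ex q (fun ω => sz (2 ^ J) (c ω)) := Ex_nonneg hp fun ω _ => sz_nonneg _
  have hD0 : 0 ≤ Ex q (fun ω => Real.log (max (dsv (v ω) (w ω)) 1)) :=
    Ex_nonneg hp fun ω _ => Real.log_nonneg (le_max_right _ _)
  have hJ0 : 0 ≤ Real.log ((J : ℝ) + 2) := Real.log_nonneg (by
    have : (0 : ℝ) ≤ J := by positivity
    linarith)
  rcases Nat.eq_zero_or_pos d with hd | hd
  · have h0 : CH q v (fun ω => ((s ω + c ω, X ω), w ω, Z ω)) = 0 :=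
      CH_eq_zero hp fun ω ω' _ _ _ => by
        funext k
        exact absurd k.2 (by omega)
    rw [h0]
    positivity
  choose i hi using fun ω => dsv_exists hd (v ω) (w ω)
  obtain ⟨g, hg⟩ : ∃ g : Ω → ℤ, g = fun ω => v ω (i ω) - w ω (i ω) := ⟨_, rfl⟩
  have hgabs : ∀ ω, |(g ω : ℝ)| = dsv (v ω) (w ω) := by
    intro ω
    rw [hg, ← hi ω]
    push_cast
    rfl
  have hgnat : ∀ ω, ((g ω).natAbs : ℝ) = dsv (v ω) (w ω) := by
    intro ω
    rw [← hgabs ω, Nat.cast_natAbs, Int.cast_abs]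
  obtain ⟨b, hb⟩ : ∃ b : Ω → ℕ, b = fun ω => Nat.clog 2 (g ω).natAbs := ⟨_, rfl⟩
  have hb1 : ∀ ω, (g ω).natAbs ≤ 2 ^ b ω := by
    intro ω
    rw [hb]
    exact Nat.le_pow_clog (by norm_num) _
  have hb2 : ∀ ω, (2 : ℝ) ^ b ω ≤ 2 * max (dsv (v ω) (w ω)) 1 := by
    intro ω
    rw [← hgnat ω]
    rcases Nat.lt_or_ge 1 (g ω).natAbs with hlt | hge
    · have h2 := Nat.pow_pred_clog_lt_self (b := 2) (by norm_num) hlt
      have h3 : 0 < Nat.clog 2 (g ω).natAbs := Nat.clog_pos (by norm_num) hlt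
      have h4 : 2 ^ b ω = 2 ^ (Nat.clog 2 (g ω).natAbs).pred * 2 := by
        rw [hb, ← pow_succ]
        congr 1
        show Nat.clog 2 (g ω).natAbs = (Nat.clog 2 (g ω).natAbs).pred + 1
        rw [Nat.pred_eq_sub_one]
        omega
      have h5 : ((2 ^ b ω : ℕ) : ℝ) ≤ (((g ω).natAbs * 2 : ℕ) : ℝ) := by
        rw [h4]
        exact_mod_cast Nat.mul_le_mul_right 2 h2.le
      push_cast at h5
      have h6 := le_max_left ((g ω).natAbs : ℝ) 1
      push_cast at h6 ⊢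
      linarith
    · have h2 : b ω = 0 := by
        rw [hb]
        exact Nat.clog_of_right_le_one hge 2
      rw [h2, pow_zero]
      have h6 := le_max_right ((g ω).natAbs : ℝ) 1
      linarith
  have hg2 : ∀ ω, 0 < q ω → dsv (v ω) (w ω) ≤ 2 * ((2 ^ J : ℕ) : ℝ) := by
    intro ω hω
    rw [← hi ω]
    have h2 : (|v ω (i ω)| : ℝ) ≤ ((2 ^ J : ℕ) : ℝ) := by exact_mod_cast hPt.hv ω hω (i ω)
    have h3 : (|w ω (i ω)| : ℝ) ≤ ((2 ^ J : ℕ) : ℝ) := by exact_mod_cast hPt.fam.hv ω hω (i ω)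
    have h4 := abs_sub (v ω (i ω) : ℝ) (w ω (i ω) : ℝ)
    linarith
  have hb3 : ∀ ω, 0 < q ω → b ω ≤ J + 1 := by
    intro ω hω
    rw [hb]
    refine Nat.clog_le_of_le_pow ?_
    have h2 := hg2 ω hω
    rw [← hgnat ω] at h2
    have h3 : ((g ω).natAbs : ℝ) ≤ ((2 ^ (J + 1) : ℕ) : ℝ) := by
      rw [pow_succ]
      push_cast at h2 ⊢
      linarith
    exact_mod_cast h3
  obtain ⟨A, hA⟩ : ∃ A : Ω → (ℤ × (Fin d → ℤ)) × (Fin d → ℤ) × ζ,
    A = fun ω => ((s ω + c ω, X ω), w ω, Z ω) := ⟨_, rfl⟩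
  rw [← hA]
  have s1 := CH_le_add hp v (fun ω => (i ω, b ω)) A
  have s2 := CH_le_add hp v g (fun ω => ((i ω, b ω), A ω))
  have s3 : CH q (fun ω => (i ω, b ω)) A ≤ Real.log d + Real.log (J + 2) := by
    refine (CH_le_card hp h1 (fun ω => (i ω, b ω)) A (fun _ => univ ×ˢ range (J + 2))
      (fun ω hω => ?_)).trans (le_of_eq ?_)
    · rw [mem_product]
      refine ⟨mem_univ _, mem_range.2 ?_⟩
      have := hb3 ω hω
      show b ω < J + 2
      omega
    · rw [Ex_const h1, card_product, card_univ, Fintype.card_fin, card_range]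
      have hd' : (d : ℝ) ≠ 0 := by
        have : (0 : ℝ) < d := by exact_mod_cast hd
        exact this.ne'
      push_cast
      rw [Real.log_mul hd' (by positivity)]
  have s4 : CH q g (fun ω => ((i ω, b ω), A ω)) ≤
      Real.log 5 + Ex q (fun ω => Real.log (max (dsv (v ω) (w ω)) 1)) := by
    refine (CH_le_card hp h1 g (fun ω => ((i ω, b ω), A ω))
      (fun W => Icc (-(2 : ℤ) ^ W.1.2) ((2 : ℤ) ^ W.1.2)) (fun ω _ => ?_)).trans ?_
    · rw [mem_Icc]
      have h2 : |g ω| ≤ (2 : ℤ) ^ b ω := by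
        rw [Int.abs_eq_natAbs]
        exact_mod_cast hb1 ω
      exact abs_le.1 h2
    · rw [← Ex_const h1 (Real.log 5), ← Ex_add]
      refine Ex_mono hp fun ω _ => ?_
      have hpos : (0 : ℝ) < max (dsv (v ω) (w ω)) 1 := lt_of_lt_of_le one_pos (le_max_right _ _)
      have hcard : (((Icc (-(2 : ℤ) ^ b ω) ((2 : ℤ) ^ b ω)).card : ℕ) : ℝ) =
          2 * (2 : ℝ) ^ b ω + 1 := by
        rw [Int.card_Icc]
        have h3 : ((2 : ℤ) ^ b ω + 1 - -(2 : ℤ) ^ b ω).toNat = 2 * 2 ^ b ω + 1 := by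
          have h4 : (2 : ℤ) ^ b ω + 1 - -(2 : ℤ) ^ b ω = ((2 * 2 ^ b ω + 1 : ℕ) : ℤ) := by
            push_cast
            ring
          rw [h4, Int.toNat_natCast]
        rw [h3]
        push_cast
        ring
      show Real.log (((Icc (-(2 : ℤ) ^ b ω) ((2 : ℤ) ^ b ω)).card : ℕ) : ℝ) ≤
        Real.log 5 + Real.log (max (dsv (v ω) (w ω)) 1)
      rw [hcard, ← Real.log_mul (by norm_num) hpos.ne']
      refine Real.log_le_log (by positivity) ?_
      have h5 := hb2 ω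
      have h6 := le_max_right (dsv (v ω) (w ω)) 1
      linarith
  have s5 := hVEC d Ω _ q (fun ω => (g ω, ((i ω, b ω), A ω))) v
    (fun ω => pt7F (2 ^ J) (w ω) (uw ω) (s ω + c ω) (X ω) (i ω) (g ω))
    (fun ω => 10 * ((2 ^ J : ℕ) : ℝ) / max |(c ω : ℝ)| 1) hp h1 (fun ω ω' a a' hh => by
      rw [hA] at hh
      simp only [Prod.mk.injEq] at hh
      obtain ⟨e1, ⟨e2, -⟩, ⟨e4, e5⟩, e6, e7⟩ := hh
      have e8 : uw ω = uw ω' := hPt.fam.hu ω ω' a a' (Prod.ext e6 e7)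
      show pt7F (2 ^ J) (w ω) (uw ω) (s ω + c ω) (X ω) (i ω) (g ω) =
        pt7F (2 ^ J) (w ω') (uw ω') (s ω' + c ω') (X ω') (i ω') (g ω')
      rw [e1, e2, e4, e5, e6, e8]) (fun ω hω k => by
      have hW : ∀ l, |((X ω l : ℝ) - pos (2 ^ J) (uw ω) (w ω) (s ω + c ω) l) -
          (c ω : ℝ) / ((2 ^ J : ℕ) : ℝ) * ((v ω l : ℝ) - w ω l)| ≤ 2 := by
        intro l
        have h2 := hPt.hX ω hω l
        refine le_trans (le_of_eq (congrArg abs ?_)) h2
        unfold pos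
        push_cast
        ring
      have hgi : (g ω : ℝ) = (v ω (i ω) : ℝ) - w ω (i ω) := by
        rw [hg]
        push_cast
        rfl
      have h3 := pt7_real hM0 (c ω) (gi := (g ω : ℝ)) (gk := (v ω k : ℝ) - w ω k)
        (Wi := (X ω (i ω) : ℝ) - pos (2 ^ J) (uw ω) (w ω) (s ω + c ω) (i ω))
        (Wk := (X ω k : ℝ) - pos (2 ^ J) (uw ω) (w ω) (s ω + c ω) k)
        (by
          rw [hgabs ω]
          have := abs_le_dsv (v ω) (w ω) k
          push_cast at this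
          exact this)
        (by
          rw [hgabs ω]
          exact hg2 ω hω)
        (by
          rw [hgi]
          exact hW (i ω)) (hW k)
      refine le_trans (le_of_eq (congrArg abs ?_)) h3
      unfold pt7F
      ring)
  have s6 : Ex q (fun ω => Real.log (1 + 10 * ((2 ^ J : ℕ) : ℝ) / max |(c ω : ℝ)| 1)) ≤
      3 + Ex q (fun ω => sz (2 ^ J) (c ω)) := by
    rw [← Ex_const h1 (3 : ℝ), ← Ex_add]
    refine Ex_mono hp fun ω _ => ?_
    have hpos : (0 : ℝ) < max |(c ω : ℝ)| 1 := lt_of_lt_of_le one_pos (le_max_right _ _)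
    have h2 : (0 : ℝ) ≤ ((2 ^ J : ℕ) : ℝ) / max |(c ω : ℝ)| 1 := by positivity
    have h3 : (1 : ℝ) + 10 * ((2 ^ J : ℕ) : ℝ) / max |(c ω : ℝ)| 1 ≤
        10 * (1 + ((2 ^ J : ℕ) : ℝ) / max |(c ω : ℝ)| 1) := by
      have h4 : 10 * ((2 ^ J : ℕ) : ℝ) / max |(c ω : ℝ)| 1 =
          10 * (((2 ^ J : ℕ) : ℝ) / max |(c ω : ℝ)| 1) := by ring
      rw [h4]
      linarith
    have h5 : Real.log 10 ≤ 3 := by
      have h6 : Real.log 10 ≤ Real.log (Real.exp 3) := by
        refine Real.log_le_log (by norm_num) ?_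
        have h7 : (2.7 : ℝ) ≤ Real.exp 1 := by
          have := Real.exp_one_gt_d9
          linarith
        have h8 : Real.exp 3 = Real.exp 1 ^ 3 := by
          rw [← Real.exp_nat_mul]
          norm_num
        rw [h8]
        calc (10 : ℝ) ≤ 2.7 ^ 3 := by norm_num
          _ ≤ Real.exp 1 ^ 3 := pow_le_pow_left₀ (by norm_num) h7 3
      rwa [Real.log_exp] at h6
    have h9 : 0 ≤ Real.log (1 + |(c ω : ℝ)| / ((2 ^ J : ℕ) : ℝ)) :=
      Real.log_nonneg (by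
        have : 0 ≤ |(c ω : ℝ)| / ((2 ^ J : ℕ) : ℝ) := by positivity
        linarith)
    have h10 := Real.log_le_log (by positivity) h3
    rw [Real.log_mul (by norm_num) (by positivity)] at h10
    unfold sz
    linarith
  have s7 : Real.log d ≤ d := by
    have hd' : (0 : ℝ) < d := by exact_mod_cast hd
    have := Real.log_le_sub_one_of_pos hd'
    linarith
  have s8 : Real.log 5 ≤ 3 := by
    have := Real.log_le_sub_one_of_pos (show (0 : ℝ) < 5 by norm_num)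
    have h6 : Real.log 5 ≤ Real.log (Real.exp 2) := by
      refine Real.log_le_log (by norm_num) ?_
      have h7 : (2.7 : ℝ) ≤ Real.exp 1 := by
        have := Real.exp_one_gt_d9
        linarith
      have h8 : Real.exp 2 = Real.exp 1 ^ 2 := by
        rw [← Real.exp_nat_mul]
        norm_num
      rw [h8]
      calc (5 : ℝ) ≤ 2.7 ^ 2 := by norm_num
        _ ≤ Real.exp 1 ^ 2 := pow_le_pow_left₀ (by norm_num) h7 2
    rw [Real.log_exp] at h6
    linarith
  have hd0 : (0 : ℝ) ≤ d := by positivity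
  have s9 : (d : ℝ) * (2 * Ex q (fun ω => Real.log (1 + 10 * ((2 ^ J : ℕ) : ℝ) /
      max |(c ω : ℝ)| 1)) + 10) ≤ d * (2 * (3 + Ex q (fun ω => sz (2 ^ J) (c ω))) + 10) :=
    mul_le_mul_of_nonneg_left (by linarith) hd0
  have s10 : 0 ≤ (d : ℝ) * Ex q (fun ω => sz (2 ^ J) (c ω)) := mul_nonneg hd0 hsz
  nlinarith

end Pool.Agent.H24.KTH
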