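import Pool.Agent.H24.KTH.Top

/-!
# KTH, row INF: conditioning the cap of `v` on `Y` costs at most the information of `v` and `Y`
-/

set_option autoImplicit false

namespace Pool.Agent.H24.KTH

open Finset Real
open Pool.Agent.H49.Ent Pool.Agent.H32.Dense

/-- the general inequality: `D` is a function of `v` and `w`. -/
theorem inf_aux {Ω : Type} [Fintype Ω] {S T U V : Type} {p : Ω → ℝ} (hp : ∀ ω, 0 ≤ p ω)
    (v : Ω → S) (D : Ω → T) (W : Ω → U) (W' : Ω → V) (h : Det p W' W)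
    (hD : Det p (fun ω => (v ω, W ω)) D) :
    CH p D W + CH p v W' ≤ CH p D W' + CH p v W := by
  have hD' : Det p (fun ω => (v ω, W' ω)) D := fun ω ω' a b hh => by
    obtain ⟨h1, h2⟩ := Prod.ext_iff.mp hh
    exact hD ω ω' a b (Prod.ext h1 (h ω ω' a b h2))
  have key : ∀ {R : Type} (Q : Ω → R), Det p (fun ω => (v ω, Q ω)) D →
      CH p D Q + CH p v (fun ω => (D ω, Q ω)) = CH p v Q := by
    intro R Q hQ
    rw [← CH_chain hp]
    refine CH_congr hp ?_ ?_ (fun ω ω' _ _ hh => hh) (fun ω ω' _ _ hh => hh)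
    · intro ω ω' _ _ hh
      exact (Prod.ext_iff.mp (Prod.ext_iff.mp hh).1).1
    · intro ω ω' a b hh
      exact Prod.ext (Prod.ext_iff.mp hh).1 (hQ ω ω' a b hh)
  have h1 := key W hD
  have h2 := key W' hD'
  have h3 := CH_mono_cond hp (X := v) (W' := fun ω => (D ω, W' ω)) (W := fun ω => (D ω, W ω))
    (fun ω ω' a b hh => by
      obtain ⟨h1, h2⟩ := Prod.ext_iff.mp hh
      exact Prod.ext h1 (h ω ω' a b h2))
  linarith

theorem inf_card {Ω : Type} [Fintype Ω] {T : Type} {p : Ω → ℝ} (hp : ∀ ω, 0 ≤ p ω)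
    (h1 : ∑ ω, p ω = 1) (N : ℕ) (w : Ω → ℕ) (hw : ∀ ω, w ω ≤ N) (W : Ω → T) :
    CH p w W ≤ Real.log (N + 1) := by
  refine (CH_le_card hp h1 w W (fun _ => range (N + 1)) (fun ω _ => by
    rw [mem_range]
    have := hw ω
    omega)).trans (le_of_eq ?_)
  rw [card_range, Ex_const h1]
  push_cast
  rfl

/-- **INF**. -/
theorem inf : INFStmt := by
  intro d N _
  refine ⟨Real.log (N + 1), ?_⟩
  intro J Ω _ ζ υ p Z v Y w hp h1 hw
  have e1 := inf_aux hp v (fun ω => cap J (lev J N (w ω)) (v ω)) (fun ω => (w ω, Z ω))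
    (fun ω => (w ω, Y ω, Z ω))
    (fun ω ω' _ _ hh => by
      simp only [Prod.mk.injEq] at hh ⊢
      exact ⟨hh.1, hh.2.2⟩)
    (fun ω ω' _ _ hh => by
      simp only [Prod.mk.injEq] at hh
      show cap J (lev J N (w ω)) (v ω) = cap J (lev J N (w ω')) (v ω')
      rw [hh.1, hh.2.1])
  have e2 : CH p v (fun ω => (w ω, Z ω)) ≤ CH p v Z :=
    CH_mono_cond hp (fun ω ω' _ _ hh => (Prod.ext_iff.mp hh).2)
  have e3 := CH_le_add hp v w (fun ω => (Y ω, Z ω))
  have e4 := inf_card hp h1 N w hw (fun ω => (Y ω, Z ω))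
  linarith

end Pool.Agent.H24.KTH
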