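import Pool.Agent.H12.KTH.Stmts

/-!
# KTH, rows TRV (trivial bounds) and KSP (families with many directions are spread)
-/

set_option autoImplicit false

namespace Pool.KTH

open Finset Real
open Pool.Agent.H49.Ent Pool.Agent.H32.Dense
open Pool.Agent.H24.KTH (dsv lvv lev cap Yf kp LevOne LevPlus LevZero)

theorem trv_log (J : ℕ) : Real.log ((2 ^ J : ℕ) : ℝ) = lm J := by
  unfold lm
  push_cast
  rw [Real.log_pow]

theorem trv_lvv_le {d : ℕ} (J : ℕ) (x y : Fin d → ℤ) : lvv (2 ^ J) x y ≤ lm J := by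
  rw [← trv_log J]
  unfold lvv
  have hM : (0 : ℝ) < ((2 ^ J : ℕ) : ℝ) := by positivity
  have h1 : (1 : ℝ) ≤ max (dsv x y) 1 := le_max_right _ _
  refine Real.log_le_log (by positivity) ?_
  rw [div_le_iff₀ (by linarith)]
  nlinarith

theorem trv_lvv_ge {d : ℕ} (J : ℕ) (x y : Fin d → ℤ) (hx : ∀ k, |x k| ≤ ((2 ^ J : ℕ) : ℤ))
    (hy : ∀ k, |y k| ≤ ((2 ^ J : ℕ) : ℤ)) : -Real.log 2 ≤ lvv (2 ^ J) x y := by
  have hM : (0 : ℝ) < ((2 ^ J : ℕ) : ℝ) := by positivity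
  have hM1 : (1 : ℝ) ≤ ((2 ^ J : ℕ) : ℝ) := by exact_mod_cast Nat.one_le_two_pow
  have h1 : dsv x y ≤ 2 * ((2 ^ J : ℕ) : ℝ) := by
    unfold dsv
    refine (pi_norm_le_iff_of_nonneg (by positivity)).2 fun k => ?_
    rw [Real.norm_eq_abs]
    have h2 : |x k - y k| ≤ 2 * ((2 ^ J : ℕ) : ℤ) := by
      have h3 := abs_sub (x k) (y k)
      have h4 := hx k
      have h5 := hy k
      linarith
    have h6 : ((|x k - y k| : ℤ) : ℝ) ≤ ((2 * ((2 ^ J : ℕ) : ℤ) : ℤ) : ℝ) := by exact_mod_cast h2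
    rw [Int.cast_abs] at h6
    push_cast at h6 ⊢
    exact h6
  have h2 : max (dsv x y) 1 ≤ 2 * ((2 ^ J : ℕ) : ℝ) := max_le h1 (by linarith)
  have h3 : (1 : ℝ) ≤ max (dsv x y) 1 := le_max_right _ _
  have h4 : (2 : ℝ)⁻¹ ≤ ((2 ^ J : ℕ) : ℝ) / max (dsv x y) 1 := by
    rw [le_div_iff₀ (by linarith)]
    linarith
  unfold lvv
  rw [← Real.log_inv]
  exact Real.log_le_log (by norm_num) h4

/-- **TRV**. -/
theorem trv : TRVStmt := by
  refine ⟨fun d J F L sb e h => ⟨?_, ?_, ?_, ?_, ?_, ?_, ?_, ?_⟩, fun d J G => ⟨?_, ?_, ?_, ?_, ?_,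
    fun e he => ?_⟩⟩
  · have h1 := CH_subadd F.hq F.A F.B F.Z
    have h2 := h.sA
    have h3 := h.sB
    have h4 : F.mh = CH F.q (fun w => (F.A w, F.B w)) F.Z := rfl
    linarith
  · rw [← trv_log J]
    exact CH_time_le F.hq F.h1 F.ht _
  · rw [← trv_log J]
    exact CH_time_le F.hq F.h1 F.hs _
  · exact CH_nonneg F.hq _ _
  · rw [← Ex_const F.h1 (-Real.log 2)]
    exact Ex_mono F.hq fun w hw => trv_lvv_ge J _ _ (F.hv₀ w hw) (F.hv₁ w hw)
  · rw [← Ex_const F.h1 (lm J)]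
    exact Ex_mono F.hq fun w _ => trv_lvv_le J _ _
  · rw [← Ex_const F.h1 (-Real.log 2)]
    exact Ex_mono F.hq fun w hw => trv_lvv_ge J _ _ (F.hv₁ w hw) (F.hv₂ w hw)
  · rw [← Ex_const F.h1 (lm J)]
    exact Ex_mono F.hq fun w _ => trv_lvv_le J _ _
  · exact CH_nonneg G.isFam.hp _ _
  · exact CH_nonneg G.isFam.hp _ _
  all_goals
    have hp := G.isFam.hp
    have hsb : G.sb = CH G.p G.τ G.Z + G.S := by
      have h1 := CH_chain hp (fun ω => rd (pos (2 ^ J) (G.u ω) (G.v ω) (G.τ ω))) G.τ G.Z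
      have h2 : G.sb = CH G.p (fun ω => (rd (pos (2 ^ J) (G.u ω) (G.v ω) (G.τ ω)), G.τ ω)) G.Z := by
        refine CH_congr hp ?_ ?_ (fun _ _ _ _ hh => hh) (fun _ _ _ _ hh => hh)
        · intro ω ω' _ _ hh
          obtain ⟨h3, -⟩ := Prod.ext_iff.mp hh
          have h4 := Prod.ext_iff.mp h3
          exact Prod.ext h4.2 h4.1
        · intro ω ω' _ _ hh
          obtain ⟨h3, -⟩ := Prod.ext_iff.mp hh
          have h4 := Prod.ext_iff.mp h3
          exact Prod.ext h4.2 h4.1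
      have h3 : G.S = CH G.p (fun ω => rd (pos (2 ^ J) (G.u ω) (G.v ω) (G.τ ω)))
          (fun ω => (G.τ ω, G.Z ω)) := by
        refine CH_congr hp ?_ ?_ ?_ ?_
        · intro ω ω' _ _ hh
          exact (Prod.ext_iff.mp hh).1
        · intro ω ω' _ _ hh
          exact (Prod.ext_iff.mp hh).1
        · intro ω ω' _ _ hh
          have h4 := Prod.ext_iff.mp hh
          exact Prod.ext h4.2 h4.1
        · intro ω ω' _ _ hh
          have h4 := Prod.ext_iff.mp hh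
          exact Prod.ext h4.2 h4.1
      rw [h2, h1, h3]
  · have h1 := CH_time_le hp G.isFam.h1 G.isFam.hτ G.Z
    rw [trv_log] at h1
    linarith
  · have h1 : ∑ w, dbl G.p (av (2 ^ J) G.Z G.v G.u G.τ) w = 1 :=
      (dbl_fst hp).sum.trans G.isFam.h1
    rw [← Ex_const h1 (lm J)]
    exact Ex_mono (dbl_nonneg hp) fun w _ => trv_lvv_le J _ _
  · have h1 : ∑ w, dbl G.p (av (2 ^ J) G.Z G.v G.u G.τ) w = 1 :=
      (dbl_fst hp).sum.trans G.isFam.h1
    rw [← Ex_const h1 (-Real.log 2)]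
    exact Ex_mono (dbl_nonneg hp) fun w hw => trv_lvv_ge J _ _
      (G.isFam.hv _ ((dbl_fst hp).pos (dbl_nonneg hp) hw))
      (G.isFam.hv _ ((dbl_snd hp).pos (dbl_nonneg hp) hw))
  · have h1 := CH_time_le hp G.isFam.h1 G.isFam.hτ (fun ω => (G.v ω, G.Z ω))
    rw [trv_log] at h1
    have h2 : CH G.p G.τ (fun ω => (G.v ω, G.Z ω)) ≤ CH G.p G.τ G.Z :=
      CH_mono_cond hp (fun _ _ _ _ hh => (Prod.ext_iff.mp hh).2)
    have h3 : lm J - e ≤ CH G.p G.τ (fun ω => (G.v ω, G.Z ω)) := he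
    constructor <;> linarith

/-- **KSP**. -/
theorem ksp (hCAP : Pool.Agent.H24.KTH.CAPStmt) : KSPStmt := by
  intro d N hN
  obtain ⟨C, hC⟩ := hCAP d N (by omega)
  refine ⟨max C 0, le_max_right _ _, ?_⟩
  intro J G x hx Ω' _ q pr w hq hm hw
  have h1 := (hC J Ω' _ q (fun ω => G.Z (pr ω)) (fun ω => G.v (pr ω)) w hq
    (hm.sum.trans G.isFam.h1) (fun ω hω k => by
      have := G.isFam.hv (pr ω) (hm.pos hq hω) k
      push_cast at this
      exact this) hw).1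
  rw [hm.CH G.v G.Z] at h1
  have h2 : G.L = CH G.p G.v G.Z := rfl
  have h3 : (J : ℝ) * Real.log 2 = lm J := rfl
  have h4 := le_max_left C 0
  rw [h3] at h1
  rw [h2] at hx
  have h5 : (d : ℝ) * ((1 - Ex q (fun ω => (w ω : ℝ)) / N) * lm J) =
      d * lm J - d * (Ex q (fun ω => (w ω : ℝ)) / N * lm J) := by ring
  rw [h5] at h1
  linarith

end Pool.KTH
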