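import Pool.Agent.H78.KTH.TRV

/-!
# KTH, row LVO: the entropy theorem
-/

set_option autoImplicit false

namespace Pool.KTH

open Finset Real
open Pool.Agent.H49.Ent Pool.Agent.H32.Dense
open Pool.Agent.H24.KTH (dsv lvv lev cap Yf kp LevOne LevPlus LevZero REDStmt CAPStmt)

theorem lvo_max {l x : ℝ} (hl : 0 < l) : max 0 (l * x) = l * max 0 x := by
  rcases le_total 0 x with h | h
  · rw [max_eq_right h, max_eq_right (mul_nonneg hl.le h)]
  · rw [max_eq_left h, max_eq_left (mul_nonpos_of_nonneg_of_nonpos hl.le h), mul_zero]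

theorem lvo_mu {m : ℕ} (hm : 7 ≤ m) : 2 * kp aa / (aa - 1) ≤ (m : ℝ) := by
  have hm' : (7 : ℝ) ≤ m := by exact_mod_cast hm
  refine le_trans ?_ hm'
  unfold kp aa
  norm_num

/-- **LVO**. -/
theorem lvo (hRED : REDStmt) (hCAP : CAPStmt) (hKSP : KSPStmt) (hLVB : LVBStmt)
    (hNUM : NUMStmt) : LVOStmt := by
  intro m hm hLP ε hε
  obtain ⟨ε₀, hε₀, hnum⟩ := hNUM m hm
  obtain ⟨N₁, hN₁, θ₁, hθ₁, J₁, hlvb⟩ := hLVB m (by omega) hLP m (lvo_mu hm) ε₀ hε₀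
  obtain ⟨N₂', hN₂'⟩ := exists_nat_gt (8 / ε₀)
  obtain ⟨N₂, hN₂e⟩ : ∃ N₂, N₂ = N₂' + 1 := ⟨_, rfl⟩
  have hN₂ : 0 < N₂ := by omega
  have hN₂r : (1 : ℝ) / N₂ ≤ ε₀ / 8 := by
    have h1 : (0 : ℝ) < N₂ := by exact_mod_cast hN₂
    have h2 : 8 / ε₀ ≤ (N₂ : ℝ) := by
      rw [hN₂e]
      push_cast
      linarith
    rw [div_le_iff₀ hε₀] at h2
    rw [div_le_iff₀ h1]
    linarith
  obtain ⟨C₂', J₂, hred⟩ := hRED m N₂ hN₂ (ε₀ / 16) (by positivity)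
  obtain ⟨C₃', hcap⟩ := hCAP m N₂ hN₂
  obtain ⟨C₄, hC₄, hksp⟩ := hKSP m N₁ hN₁
  obtain ⟨C, hC⟩ : ∃ C, C = max 0 (max C₂' C₃') + C₄ := ⟨_, rfl⟩
  have hC₂ : C₂' ≤ C := by
    rw [hC]
    have := (le_max_left C₂' C₃').trans (le_max_right 0 _)
    linarith
  have hC₃ : C₃' ≤ C := by
    rw [hC]
    have := (le_max_right C₂' C₃').trans (le_max_right 0 _)
    linarith
  have hC₄' : C₄ ≤ C := by
    rw [hC]
    have := le_max_left 0 (max C₂' C₃')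
    linarith
  have hC0 : 0 ≤ C := hC₄.trans hC₄'
  obtain ⟨J₃, hJ₃⟩ := exists_nat_gt (2 + 32 * C / ε₀ + 4 * C / θ₁)
  obtain ⟨θ, hθe⟩ : ∃ θ, θ = min (θ₁ / 4) (ε₀ / 16) := ⟨_, rfl⟩
  have hθ0 : 0 < θ := by rw [hθe]; exact lt_min (by positivity) (by positivity)
  have hθa : θ ≤ θ₁ / 4 := by rw [hθe]; exact min_le_left _ _
  have hθb : θ ≤ ε₀ / 16 := by rw [hθe]; exact min_le_right _ _
  refine ⟨θ, hθ0, max J₁ (max J₂ J₃), ?_⟩
  intro J hJ Ω _ ζ p Z v u τ hfam hKf hL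
  have hJ1 : J₁ ≤ J := (le_max_left _ _).trans hJ
  have hJ2 : J₂ ≤ J := (le_max_left _ _).trans ((le_max_right _ _).trans hJ)
  have hJ3 : (J₃ : ℝ) ≤ J := by
    exact_mod_cast (le_max_right _ _).trans ((le_max_right _ _).trans hJ)
  have hl2a : (1 : ℝ) / 2 ≤ Real.log 2 := by
    have := Real.log_two_gt_d9
    linarith
  have hJ0 : (2 : ℝ) ≤ J := by
    have h1 : 0 ≤ 32 * C / ε₀ := by positivity
    have h2 : 0 ≤ 4 * C / θ₁ := by positivity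
    linarith
  have hlm : lm J = J * Real.log 2 := rfl
  have hlmJ : (J : ℝ) ≤ 2 * lm J := by rw [hlm]; nlinarith
  have hlm0 : 0 < lm J := by linarith
  have hCa : C ≤ ε₀ / 16 * lm J := by
    have h1 : 32 * C / ε₀ ≤ J := by
      have h2 : 0 ≤ 4 * C / θ₁ := by positivity
      linarith
    rw [div_le_iff₀ hε₀] at h1
    nlinarith
  have hCb : C ≤ θ₁ / 2 * lm J := by
    have h1 : 4 * C / θ₁ ≤ J := by
      have h2 : 0 ≤ 32 * C / ε₀ := by positivity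
      linarith
    rw [div_le_iff₀ hθ₁] at h1
    nlinarith
  have hθJ1 : θ * J ≤ θ₁ / 2 * lm J := by
    have h1 : θ * J ≤ θ₁ / 4 * J := mul_le_mul_of_nonneg_right hθa (by linarith)
    nlinarith
  have hθJ2 : θ * J ≤ ε₀ / 8 * lm J := by
    have h1 : θ * J ≤ ε₀ / 16 * J := mul_le_mul_of_nonneg_right hθb (by linarith)
    nlinarith
  -- the heavy caps
  obtain ⟨w, hw, hfam', hKf', hY', hS'⟩ := hred J hJ2 Ω ζ p Z v u τ hfam
  obtain ⟨hc1, hc2, hc3, -⟩ := hcap J Ω ζ p Z v w hfam.hp hfam.h1 (fun ω hω k => by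
    have := hfam.hv ω hω k
    push_cast at this
    exact this) hw
  obtain ⟨e0, he0⟩ : ∃ e0, e0 = Ex p (fun ω => (w ω : ℝ)) / N₂ := ⟨_, rfl⟩
  rw [← he0, ← hlm] at hc1 hc3 hY'
  have hN₂0 : (0 : ℝ) < N₂ := by exact_mod_cast hN₂
  have he00 : 0 ≤ e0 := by
    rw [he0]
    exact div_nonneg (Ex_nonneg hfam.hp fun ω _ => by positivity) hN₂0.le
  have he01 : e0 ≤ 1 := by
    rw [he0, div_le_one hN₂0, ← Ex_const hfam.h1 (N₂ : ℝ)]
    exact Ex_mono hfam.hp fun ω _ => by exact_mod_cast hw ω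
  -- the new family
  obtain ⟨G, hG⟩ : ∃ G : Fm m J, G = ⟨Ω, (Fin m → ℤ) × ℕ × ζ, inferInstance, p,
    fun ω => (cap J (lev J N₂ (w ω)) (v ω), w ω, Z ω), v, u, τ, hfam'⟩ := ⟨_, rfl⟩
  have hGL : G.L = CH p v (fun ω => (cap J (lev J N₂ (w ω)) (v ω), w ω, Z ω)) := by
    rw [hG]; rfl
  have hGS : G.S = Sf (2 ^ J) p (fun ω => (cap J (lev J N₂ (w ω)) (v ω), w ω, Z ω)) v u τ := by
    rw [hG]; rfl
  have hGY : G.Y = Yf (2 ^ J) p (fun ω => (cap J (lev J N₂ (w ω)) (v ω), w ω, Z ω)) v u τ := by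
    rw [hG]; rfl
  rw [← hGL] at hc2
  rw [← hGS] at hS'
  rw [← hGY] at hY'
  obtain ⟨h, hh⟩ : ∃ h, h = CH p (fun ω => cap J (lev J N₂ (w ω)) (v ω)) (fun ω => (w ω, Z ω)) :=
    ⟨_, rfl⟩
  rw [← hh] at hc1 hc2 hc3 hS'
  obtain ⟨L, hLe⟩ : ∃ L, L = CH p v Z := ⟨_, rfl⟩
  rw [← hLe, ← hlm] at hL
  rw [← hLe] at hc1 hc2
  obtain ⟨S, hSe⟩ : ∃ S, S = Sf (2 ^ J) p Z v u τ := ⟨_, rfl⟩
  rw [← hSe] at hS' ⊢
  rw [← hlm]
  have hm0 : (0 : ℝ) ≤ m := by positivity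
  have hL' : (m - θ) * lm J ≤ L := hL
  have hθl : θ * lm J ≤ ε₀ / 16 * lm J := mul_le_mul_of_nonneg_right hθb hlm0.le
  -- the entropy of the lines of the new family
  have b1 : (m * (1 - e0) - ε₀ / 4) * lm J ≤ G.L := by
    have h1 : (m * (1 - e0) - ε₀ / 4) * lm J = m * lm J - m * (e0 * lm J) - ε₀ / 4 * lm J := by
      ring
    rw [h1]
    linarith
  have b2 : G.S ≤ S - m * e0 * lm J + ε₀ / 2 * lm J := by
    have h1 : m * ((1 - e0) * lm J) = m * lm J - m * e0 * lm J := by ring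
    rw [h1] at hc1
    have h2 : ε₀ / 16 * J ≤ ε₀ / 8 * lm J := by nlinarith
    linarith
  have b3 : G.Y ≤ e0 * lm J + ε₀ / 2 * lm J := by
    have h1 : (1 / (N₂ : ℝ) + ε₀ / 16) * J ≤ (ε₀ / 8 + ε₀ / 16) * (2 * lm J) :=
      mul_le_mul (by linarith) hlmJ (by linarith) (by positivity)
    linarith
  -- spread
  obtain ⟨x, hx⟩ : ∃ x, x = m * e0 + ε₀ / 4 := ⟨_, rfl⟩
  have b4 : G.Spr N₁ m (x * lm J + C₄) := by
    refine hksp J G x ?_
    have h1 : ((m : ℝ) - x) * lm J = (m * (1 - e0) - ε₀ / 4) * lm J := by rw [hx]; ring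
    rw [h1]
    exact b1
  obtain ⟨t, ht⟩ : ∃ t, t = x + C₄ / lm J := ⟨_, rfl⟩
  have b5 : x * lm J + C₄ = t * lm J := by
    rw [ht]
    field_simp
  rw [b5] at b4
  have b6 : t ≤ m * e0 + ε₀ := by
    have h1 : C₄ / lm J ≤ ε₀ / 16 := by
      rw [div_le_iff₀ hlm0]
      linarith
    rw [ht, hx]
    linarith
  -- times
  have b7 : G.Tm (θ * J + C) := by
    have h1 : Real.log ((2 ^ J : ℕ) : ℝ) = lm J := trv_log J
    have h2 : Kf (2 ^ J) p (bv (fun ω => (cap J (lev J N₂ (w ω)) (v ω), w ω, Z ω)) v) τ =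
        lm J - CH p τ (fun ω => (v ω, (cap J (lev J N₂ (w ω)) (v ω), w ω, Z ω))) := by
      rw [← h1]
      rfl
    rw [h2] at hKf'
    have h3 : CH G.p G.τ (fun ω => (G.v ω, G.Z ω)) =
        CH p τ (fun ω => (v ω, (cap J (lev J N₂ (w ω)) (v ω), w ω, Z ω))) := by
      rw [hG]
    show lm J - (θ * J + C) ≤ CH G.p G.τ (fun ω => (G.v ω, G.Z ω))
    rw [h3]
    linarith
  have key := hlvb J hJ1 G (θ * J + C) t (by linarith) b7 b4
  -- normalise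
  obtain ⟨l, hl⟩ : ∃ l, l = lm J := ⟨_, rfl⟩
  rw [← hl] at key b1 b2 b3 hlm0 ⊢
  have q1 : G.L = l * (G.L / l) := by field_simp
  have q2 : G.S = l * (G.S / l) := by field_simp
  have q3 : G.Y = l * (G.Y / l) := by field_simp
  have res := hnum (S / l) (G.L / l) (G.S / l) (G.Y / l) t e0 he00 he01 (by
      rw [le_div_iff₀ hlm0]
      nlinarith) (by
      rw [div_le_iff₀ hlm0]
      have h1 : (S / l - m * e0 + ε₀) * l = S - m * e0 * l + ε₀ * l := by field_simp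
      rw [h1]
      nlinarith) (by
      rw [div_le_iff₀ hlm0]
      nlinarith) b6 (by
      generalize G.L / l = L' at *
      generalize G.S / l = S' at *
      generalize G.Y / l = Y' at *
      rw [q1, q2, q3] at key
      have m1 : t * l + 2 * (((4 * aa - 1) * (l * S' + l) - 2 * aa * (l * L' + 2 * l) + l * Y') /
          (aa - 1)) = l * (t + 2 * (((4 * aa - 1) * (S' + 1) - 2 * aa * (L' + 2) + Y') /
          (aa - 1))) := by
        have h1 : aa - 1 ≠ 0 := by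
          unfold aa
          norm_num
        field_simp
      have m2 : t * l + (2 * (l * S' + l) - l * L' - 3 * l + l * Y') =
          l * (t + (2 * (S' + 1) - L' - 3 + Y')) := by ring
      rw [m1, m2, lvo_max hlm0, lvo_max hlm0] at key
      refine le_of_mul_le_mul_left ?_ hlm0
      linarith)
  have h5 : (m + 0.28) / 1.6752 * l ≤ S := by
    rw [le_div_iff₀ hlm0] at res
    exact res
  nlinarith

end Pool.KTH
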