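import Pool.Agent.H12.KTH.Stmts
import Pool.Agent.H13.KAL.KP1

/-!
# KTH, row SCL: `KP 1` for scalar families with arbitrary integer times
-/

set_option autoImplicit false

namespace Pool.KTH

open Finset Real
open Pool.Agent.H49.Ent Pool.Agent.H32.Dense
open Pool.Agent.H24.KTH (dsv lvv lev cap Yf kp LevOne LevPlus LevZero)

theorem scl_floor_half {y : ℝ} {n : ℤ} (h : ⌊y⌋ = n) : ⌊y / 2⌋ = n / 2 := by
  rw [Int.floor_eq_iff] at h ⊢
  obtain ⟨h1, h2⟩ := h
  have h3 : 2 * (n / 2) ≤ n := by omega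
  have h4 : n + 1 ≤ 2 * (n / 2) + 2 := by omega
  have h3' : (2 : ℝ) * ((n / 2 : ℤ) : ℝ) ≤ n := by exact_mod_cast h3
  have h4' : (n : ℝ) + 1 ≤ 2 * ((n / 2 : ℤ) : ℝ) + 2 := by exact_mod_cast h4
  constructor <;> linarith

theorem scl_log2 : (1 : ℝ) / 2 ≤ Real.log 2 ∧ Real.log 2 ≤ 1 := by
  have h1 := Real.log_two_gt_d9
  have h2 := Real.log_two_lt_d9
  constructor <;> linarith

/-- the family -/
noncomputable def sclF {J : ℕ} {Ω ζ : Type} [Fintype Ω] (q : Ω → ℝ) (Z : Ω → ζ) (g : Ω → ℤ)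
    (x : Ω → ℝ) (T : Ω → ℤ) (hq : ∀ w, 0 ≤ q w) (h1 : ∑ w, q w = 1) : Pool.KA.Fam 1 J where
  Ω := Ω
  ζ := ℤ × ζ
  fin := inferInstance
  p := q
  u := fun w _ => (x w + ((T w / 2 ^ J : ℤ) : ℝ) * g w) / 2 ^ (J + 1)
  d := fun w _ => if |g w| ≤ 2 * 2 ^ J then (g w : ℝ) / 2 ^ (J + 1) else 0
  T := fun w => (T w % 2 ^ J).toNat
  Z := fun w => (T w / 2 ^ J, Z w)
  isLaw := ⟨hq, h1⟩
  dir := fun w _ => by
    split_ifs with h
    · rw [abs_div, abs_of_pos (show (0 : ℝ) < 2 ^ (J + 1) by positivity),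
        div_le_one (by positivity)]
      have h2 : ((|g w| : ℤ) : ℝ) ≤ ((2 * 2 ^ J : ℤ) : ℝ) := by exact_mod_cast h
      rw [Int.cast_abs] at h2
      push_cast at h2
      rw [pow_succ]
      linarith
    · simp
  tim := fun w => by
    have h2 : (0 : ℤ) < 2 ^ J := by positivity
    have h3 := Int.emod_nonneg (T w) h2.ne'
    have h4 := Int.emod_lt_of_pos (T w) h2
    have h5 : ((T w % 2 ^ J).toNat : ℤ) < ((2 ^ J : ℕ) : ℤ) := by
      rw [Int.toNat_of_nonneg h3]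
      push_cast
      exact h4
    exact_mod_cast h5

/-- **SCL**, with `KP 1` as a hypothesis. -/
theorem scl_of (hKP : Pool.KA.KP 1) : SCLStmt := by
  intro ε hε
  obtain ⟨hl1, hl2⟩ := scl_log2
  have hl0 : (0 : ℝ) < Real.log 2 := by linarith
  obtain ⟨θ₁, hθ₁, J₁, hJ₁⟩ := hKP (ε / 2 * Real.log 2) (by positivity)
  obtain ⟨J₂, hJ₂⟩ := exists_nat_gt (16 / θ₁ + 80 / ε)
  refine ⟨min (θ₁ / 6) (ε / 8), lt_min (by positivity) (by positivity), max J₁ J₂, ?_⟩
  intro J hJ Ω ζ _ q Z g x T hq h1 hg hT ht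
  have hJa : J₁ ≤ J := (le_max_left _ _).trans hJ
  have hJb : (J₂ : ℝ) ≤ J := by exact_mod_cast (le_max_right _ _).trans hJ
  obtain ⟨θ, hθ⟩ : ∃ θ, θ = min (θ₁ / 6) (ε / 8) := ⟨_, rfl⟩
  rw [← hθ] at hT ht
  have hθa : θ ≤ θ₁ / 6 := by rw [hθ]; exact min_le_left _ _
  have hθb : θ ≤ ε / 8 := by rw [hθ]; exact min_le_right _ _
  have hJ0 : (0 : ℝ) ≤ J := by positivity
  have hJc : 16 / θ₁ ≤ J := by
    have : 0 < 80 / ε := by positivity
    linarith
  have hJd : 80 / ε ≤ J := by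
    have : 0 < 16 / θ₁ := by positivity
    linarith
  rw [div_le_iff₀ hθ₁] at hJc
  rw [div_le_iff₀ hε] at hJd
  have hlm : lm J = J * Real.log 2 := rfl
  have hlm1 : (J : ℝ) / 2 ≤ lm J := by rw [hlm]; nlinarith
  have hlm2 : lm J ≤ J := by rw [hlm]; nlinarith
  have hlm0 : 0 ≤ lm J := by linarith
  -- the entropy of `κ`
  obtain ⟨κ, hκ⟩ : ∃ κ : Ω → ℤ, κ = fun w => T w / 2 ^ J := ⟨_, rfl⟩
  obtain ⟨τ, hτ⟩ : ∃ τ : Ω → ℕ, τ = fun w => (T w % 2 ^ J).toNat := ⟨_, rfl⟩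
  have hpow : (0 : ℤ) < 2 ^ J := by positivity
  have hTκ : ∀ w, T w = 2 ^ J * κ w + τ w := by
    intro w
    rw [hκ, hτ]
    show T w = 2 ^ J * (T w / 2 ^ J) + ((T w % 2 ^ J).toNat : ℤ)
    rw [Int.toNat_of_nonneg (Int.emod_nonneg _ hpow.ne')]
    exact (Int.mul_ediv_add_emod (T w) (2 ^ J)).symm
  have hκent : ∀ {S : Type} (W : Ω → S), CH q κ W ≤ 2 * θ * lm J + 8 := by
    intro S W
    have h2 := CH_le_tail (M := 1) (by norm_num) hq h1 κ W
    have h3 : Ex q (fun w => Real.log (1 + |(κ w : ℝ)| / ((1 : ℕ) : ℝ))) ≤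
        1 + Ex q (fun w => Real.log (1 + |(T w : ℝ)| / 2 ^ J)) := by
      have hE : Ex q (fun w => (1 : ℝ) + Real.log (1 + |(T w : ℝ)| / 2 ^ J)) =
          1 + Ex q (fun w => Real.log (1 + |(T w : ℝ)| / 2 ^ J)) := by
        rw [Ex_add, Ex_const h1]
      rw [← hE]
      refine Ex_mono hq fun w _ => ?_
      have h4 : |(κ w : ℝ)| ≤ |(T w : ℝ)| / 2 ^ J + 1 := by
        have h5 : (T w : ℝ) = 2 ^ J * κ w + τ w := by
          have := hTκ w
          exact_mod_cast this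
        have h6 : (τ w : ℝ) ≤ 2 ^ J := by
          have h7 := Int.emod_lt_of_pos (T w) hpow
          have h8 := Int.emod_nonneg (T w) hpow.ne'
          have h9 : (τ w : ℤ) ≤ 2 ^ J := by
            rw [hτ]
            show ((T w % 2 ^ J).toNat : ℤ) ≤ 2 ^ J
            rw [Int.toNat_of_nonneg h8]
            exact h7.le
          exact_mod_cast h9
        have hp0 : (0 : ℝ) < 2 ^ J := by positivity
        have h10 : (κ w : ℝ) = (T w - τ w) / 2 ^ J := by
          rw [h5]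
          field_simp
          ring
        rw [h10, abs_div, abs_of_pos hp0, div_add_one hp0.ne']
        refine div_le_div_of_nonneg_right ?_ hp0.le
        have h11 := abs_sub (T w : ℝ) (τ w : ℝ)
        rw [abs_of_nonneg (show (0 : ℝ) ≤ τ w by positivity)] at h11
        linarith
      have h5 : (0 : ℝ) ≤ |(T w : ℝ)| / 2 ^ J := by positivity
      calc Real.log (1 + |(κ w : ℝ)| / ((1 : ℕ) : ℝ))
          ≤ Real.log (2 * (1 + |(T w : ℝ)| / 2 ^ J)) := by
            refine Real.log_le_log (by positivity) ?_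
            rw [Nat.cast_one, div_one]
            linarith
        _ = Real.log 2 + Real.log (1 + |(T w : ℝ)| / 2 ^ J) :=
            Real.log_mul (by norm_num) (by positivity)
        _ ≤ _ := by linarith
    have h4 : Real.log ((1 : ℕ) : ℝ) = 0 := by simp
    rw [h4] at h2
    have h5 : 0 ≤ Ex q (fun w => Real.log (1 + |(T w : ℝ)| / 2 ^ J)) :=
      Ex_nonneg hq fun w _ => Real.log_nonneg (by
        have : (0 : ℝ) ≤ |(T w : ℝ)| / 2 ^ J := by positivity
        linarith)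
    nlinarith
  -- the family
  have hF := hJ₁ J hJa (sclF q Z g x T hq h1) ?_
  · -- conclusion
    have e1 : (sclF q Z g x T hq h1 : Pool.KA.Fam 1 J).V J =
        CH q ((sclF q Z g x T hq h1 : Pool.KA.Fam 1 J).D J) (fun w => (κ w, Z w)) -
        CH q ((sclF q Z g x T hq h1 : Pool.KA.Fam 1 J).X J) (fun w => (τ w, (κ w, Z w))) := by
      unfold Pool.KA.Fam.V
      rw [sub_self, zero_mul, mul_zero, sub_zero, hκ, hτ]
      rfl
    rw [e1] at hF
    have hp0 : (0 : ℝ) < 2 ^ J := by positivity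
    have hD : ∀ w, 0 < q w → ∀ i, (sclF q Z g x T hq h1 : Pool.KA.Fam 1 J).D J w i = g w / 2 := by
      intro w hw i
      show ⌊(2 : ℝ) ^ J * (if |g w| ≤ 2 * 2 ^ J then (g w : ℝ) / 2 ^ (J + 1) else 0)⌋ = g w / 2
      rw [if_pos (hg w hw)]
      have h2 : (2 : ℝ) ^ J * ((g w : ℝ) / 2 ^ (J + 1)) = (g w : ℝ) / 2 := by
        rw [pow_succ]
        field_simp
      rw [h2]
      exact scl_floor_half (Int.floor_intCast (g w))
    have hX : ∀ w, 0 < q w → ∀ i, (sclF q Z g x T hq h1 : Pool.KA.Fam 1 J).X J w i =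
        ⌊x w + T w / 2 ^ J * g w⌋ / 2 := by
      intro w hw i
      show ⌊(2 : ℝ) ^ J * ((x w + ((T w / 2 ^ J : ℤ) : ℝ) * g w) / 2 ^ (J + 1) +
        ((T w % 2 ^ J).toNat : ℝ) / 2 ^ J *
          (if |g w| ≤ 2 * 2 ^ J then (g w : ℝ) / 2 ^ (J + 1) else 0))⌋ = _
      rw [if_pos (hg w hw)]
      have h5 : (T w : ℝ) = 2 ^ J * ((T w / 2 ^ J : ℤ) : ℝ) + ((T w % 2 ^ J).toNat : ℝ) := by
        have h6 := hTκ w
        rw [hκ, hτ] at h6
        exact_mod_cast h6
      have h2 : (2 : ℝ) ^ J * ((x w + ((T w / 2 ^ J : ℤ) : ℝ) * g w) / 2 ^ (J + 1) +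
          ((T w % 2 ^ J).toNat : ℝ) / 2 ^ J * ((g w : ℝ) / 2 ^ (J + 1))) =
          (x w + T w / 2 ^ J * g w) / 2 := by
        rw [h5, pow_succ]
        field_simp
        ring
      rw [h2]
      exact scl_floor_half rfl
    have s1 := CH_le_add hq g κ Z
    have s2 := CH_le_add hq g ((sclF q Z g x T hq h1 : Pool.KA.Fam 1 J).D J) (fun w => (κ w, Z w))
    have s3 : CH q g (fun w => ((sclF q Z g x T hq h1 : Pool.KA.Fam 1 J).D J w, (κ w, Z w))) ≤
        Real.log 3 := by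
      refine (CH_le_int hq h1 g _ (fun _ => 1) (fun w w' hw hw' hh => ?_)).trans (le_of_eq ?_)
      · have h2 : (sclF q Z g x T hq h1 : Pool.KA.Fam 1 J).D J w 0 =
            (sclF q Z g x T hq h1 : Pool.KA.Fam 1 J).D J w' 0 := congrFun (Prod.ext_iff.mp hh).1 0
        rw [hD w hw 0, hD w' hw' 0] at h2
        have h3 : |g w - g w'| ≤ 1 := by
          rw [abs_le]
          constructor <;> omega
        have h4 : ((|g w - g w'| : ℤ) : ℝ) ≤ ((1 : ℤ) : ℝ) := by exact_mod_cast h3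
        rw [Int.cast_abs, Int.cast_one] at h4
        exact h4
      · rw [Ex_const h1]
        norm_num
    have s4 : CH q ((sclF q Z g x T hq h1 : Pool.KA.Fam 1 J).X J) (fun w => (τ w, (κ w, Z w))) ≤
        CH q (fun w => ⌊x w + T w / 2 ^ J * g w⌋) (fun w => (T w, Z w)) := by
      refine (CH_mono_left hq (X' := fun w => ⌊x w + T w / 2 ^ J * g w⌋)
        (fun w w' hw hw' hh => ?_)).trans (CH_mono_cond hq (fun w w' _ _ hh => ?_))
      · have h2 := (Prod.ext_iff.mp hh).1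
        funext i
        rw [hX w hw i, hX w' hw' i]
        have h3 : ⌊x w + T w / 2 ^ J * g w⌋ = ⌊x w' + T w' / 2 ^ J * g w'⌋ := h2
        rw [h3]
      · have h2 := (Prod.ext_iff.mp hh).1
        have h3 := Prod.ext_iff.mp (Prod.ext_iff.mp hh).2
        have h4 : τ w = τ w' := h2
        have h5 : κ w = κ w' := h3.1
        refine Prod.ext ?_ h3.2
        show T w = T w'
        rw [hTκ w, hTκ w', h4, h5]
    have s5 := hκent Z
    have s6 : Real.log 3 ≤ 2 := by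
      have := Real.log_le_sub_one_of_pos (show (0 : ℝ) < 3 by norm_num)
      linarith
    have s7 : 2 * θ * lm J ≤ ε / 4 * lm J := by
      refine mul_le_mul_of_nonneg_right ?_ hlm0
      linarith
    have s8 : ε / 2 * Real.log 2 * J = ε / 2 * lm J := by rw [hlm]; ring
    have s9 : 10 ≤ ε / 4 * lm J := by nlinarith
    rw [s8] at hF
    linarith
  · -- the time is uniform
    have e1 : CH q τ (fun w => ((g w, x w), (κ w, Z w))) ≤
        CH q τ (fun w => ((sclF q Z g x T hq h1 : Pool.KA.Fam 1 J).l w, (κ w, Z w))) := by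
      refine CH_mono_cond hq (fun w w' hw hw' hh => ?_)
      have h2 := Prod.ext_iff.mp (Prod.ext_iff.mp hh).1
      have h3 := Prod.ext_iff.mp (Prod.ext_iff.mp hh).2
      have hg' : g w = g w' := h2.1
      have hx' : x w = x w' := h2.2
      have hκ' : κ w = κ w' := h3.1
      have hκ'' : T w / 2 ^ J = T w' / 2 ^ J := by rw [hκ] at hκ'; exact hκ'
      refine Prod.ext (Prod.ext ?_ ?_) (Prod.ext_iff.mp hh).2
      · show (fun _ : Fin 1 => (x w + ((T w / 2 ^ J : ℤ) : ℝ) * g w) / 2 ^ (J + 1)) =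
          fun _ : Fin 1 => (x w' + ((T w' / 2 ^ J : ℤ) : ℝ) * g w') / 2 ^ (J + 1)
        rw [hg', hx', hκ'']
      · show (fun _ : Fin 1 => if |g w| ≤ 2 * 2 ^ J then (g w : ℝ) / 2 ^ (J + 1) else 0) =
          fun _ : Fin 1 => if |g w'| ≤ 2 * 2 ^ J then (g w' : ℝ) / 2 ^ (J + 1) else 0
        rw [hg']
    have e2 : (sclF q Z g x T hq h1 : Pool.KA.Fam 1 J).Tm (θ₁ * J) ↔ (J : ℝ) * Real.log 2 - θ₁ * J ≤
        CH q τ (fun w => ((sclF q Z g x T hq h1 : Pool.KA.Fam 1 J).l w, (κ w, Z w))) := by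
      unfold Pool.KA.Fam.Tm
      rw [hκ, hτ]
      rfl
    rw [e2]
    have e3 := CH_le_add hq T κ (fun w => ((g w, x w), Z w))
    have e4 : CH q T (fun w => (κ w, ((g w, x w), Z w))) ≤ CH q τ (fun w => ((g w, x w), (κ w, Z w))) := by
      refine (CH_mono_left hq (X' := τ) (fun w w' _ _ hh => ?_)).trans
        (CH_mono_cond hq (fun w w' _ _ hh => ?_))
      · have h2 : τ w = τ w' := (Prod.ext_iff.mp hh).1
        have h3 : κ w = κ w' := (Prod.ext_iff.mp (Prod.ext_iff.mp hh).2).1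
        rw [hTκ w, hTκ w', h2, h3]
      · have h2 := Prod.ext_iff.mp hh
        have h3 := Prod.ext_iff.mp h2.2
        exact Prod.ext h3.1 (Prod.ext h2.1 h3.2)
    have e5 := hκent (fun w => ((g w, x w), Z w))
    have e6 : 3 * θ * lm J ≤ θ₁ / 2 * J := by
      have h2 : 3 * θ * lm J ≤ θ₁ / 2 * lm J := mul_le_mul_of_nonneg_right (by linarith) hlm0
      have h3 : θ₁ / 2 * lm J ≤ θ₁ / 2 * J := mul_le_mul_of_nonneg_left hlm2 (by positivity)
      linarith
    rw [← hlm]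
    linarith

/-- **SCL**. -/
theorem scl : SCLStmt := scl_of Pool.KAL.KP1.kp_one

end Pool.KTH
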